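import Mathlib

namespace Pool.Agent.Results.MP_89b943_al.BlockDecomposable

/-- A fusion law over the field `F`. -/
structure FusionLaw (F : Type) [Field F] where
  carrier : Set F
  one_mem : (1 : F) ∈ carrier
  star : F → F → Set F
  star_subset : ∀ l ∈ carrier, ∀ m ∈ carrier, star l m ⊆ carrier

section
variable {F A : Type} [Field F] [NonUnitalNonAssocCommRing A] [Module F A] [IsScalarTower F A A]
  [SMulCommClass F A A]

/-- The `l`-eigenspace of multiplication by `a`. -/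
def eig (a : A) (l : F) : Submodule F A := Module.End.eigenspace (LinearMap.mul F A a) l

/-- The sum of the eigenspaces for the eigenvalues in `S`. -/
def eigS (a : A) (S : Set F) : Submodule F A := ⨆ l ∈ S, eig a l

/-- Primitive axes. -/
def IsPrimitiveAxis (L : FusionLaw F) (a : A) : Prop :=
  a * a = a ∧ eigS a L.carrier = ⊤ ∧
    (∀ l ∈ L.carrier, ∀ m ∈ L.carrier, ∀ u ∈ eig a l, ∀ v ∈ eig a m, u * v ∈ eigS a (L.star l m)) ∧
    eig a (1 : F) = Submodule.span F {a}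

/-- `(A, X)` is a primitive axial algebra. -/
def IsPrimitiveAxial (L : FusionLaw F) (X : Set A) : Prop :=
  (∀ a ∈ X, IsPrimitiveAxis L a) ∧ NonUnitalAlgebra.adjoin F X = ⊤

/-- `J` is an ideal of the algebra `B` (a subspace of `A` closed under the product). -/
def IsIdealIn (B J : Submodule F A) : Prop := J ≤ B ∧ ∀ x ∈ B, ∀ y ∈ J, x * y ∈ J

/-- The block of `a`: the smallest ideal of `A` containing `a`. -/
def block (F : Type) [Field F] [Module F A] (a : A) : Submodule F A :=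
  sInf {J | IsIdealIn ⊤ J ∧ a ∈ J}

/-- `B` is the sum of its proper ideals. -/
def Decomposable (B : Submodule F A) : Prop := sSup {J | IsIdealIn B J ∧ J ≠ B} = B

end

/-- Coordinates with respect to `a, b, y, z`. -/
def Ex : Type := Fin 4 → ℚ

instance : AddCommGroup Ex := inferInstanceAs (AddCommGroup (Fin 4 → ℚ))
instance : Module ℚ Ex := inferInstanceAs (Module ℚ (Fin 4 → ℚ))

/-- `a a = a`, `b b = b`, `a b = y`, `a y = 2 y`, `b y = 2 y + z`, `b z = 3 z`, other products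
zero. -/
def mulEx (u v : Fin 4 → ℚ) : Fin 4 → ℚ :=
  ![u 0 * v 0, u 1 * v 1,
    u 0 * v 1 + u 1 * v 0 + 2 * (u 0 * v 2 + u 2 * v 0) + 2 * (u 1 * v 2 + u 2 * v 1),
    u 1 * v 2 + u 2 * v 1 + 3 * (u 1 * v 3 + u 3 * v 1)]

instance : NonUnitalNonAssocCommRing Ex :=
  { (inferInstance : AddCommGroup Ex) with
    mul := mulEx
    left_distrib := fun (x y z : Fin 4 → ℚ) => show mulEx x (y + z) = mulEx x y + mulEx x z by
      ext i; fin_cases i <;> simp [mulEx] <;> ring
    right_distrib := fun (x y z : Fin 4 → ℚ) => show mulEx (x + y) z = mulEx x z + mulEx y z by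
      ext i; fin_cases i <;> simp [mulEx] <;> ring
    zero_mul := fun (x : Fin 4 → ℚ) => show mulEx 0 x = 0 by
      ext i; fin_cases i <;> simp [mulEx]
    mul_zero := fun (x : Fin 4 → ℚ) => show mulEx x 0 = 0 by
      ext i; fin_cases i <;> simp [mulEx]
    mul_comm := fun (x y : Fin 4 → ℚ) => show mulEx x y = mulEx y x by
      ext i; fin_cases i <;> simp [mulEx] <;> ring }

instance : IsScalarTower ℚ Ex Ex where
  smul_assoc c (x y : Fin 4 → ℚ) := show mulEx (c • x) y = c • mulEx x y by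
    ext i; fin_cases i <;> simp [mulEx] <;> ring

instance : SMulCommClass ℚ Ex Ex where
  smul_comm c (x y : Fin 4 → ℚ) := show c • mulEx x y = mulEx x (c • y) by
    ext i; fin_cases i <;> simp [mulEx] <;> ring

/-- Vectors of `Ex`. -/
def vec (p q r s : ℚ) : Ex := (![p, q, r, s] : Fin 4 → ℚ)

/-- The fusion law on `{0, 1, 2, 3}` with no restriction. -/
def L0 : FusionLaw ℚ := ⟨{0, 1, 2, 3}, by simp, fun _ _ => {0, 1, 2, 3}, fun _ _ _ _ => le_rfl⟩

lemma mem_eig (a u : Fin 4 → ℚ) (l : ℚ) :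
    (show Ex from u) ∈ eig (A := Ex) a l ↔ mulEx a u = l • u := Module.End.mem_eigenspace_iff

lemma comb (v w x y z : Fin 4 → ℚ) (W : Submodule ℚ Ex) (hw : (show Ex from w) ∈ W)
    (hx : (show Ex from x) ∈ W) (hy : (show Ex from y) ∈ W) (hz : (show Ex from z) ∈ W)
    (p q r s : ℚ) (h : v = p • w + q • x + r • y + s • z) : (show Ex from v) ∈ W := by
  subst h
  exact W.add_mem (W.add_mem (W.add_mem (W.smul_mem _ hw) (W.smul_mem _ hx)) (W.smul_mem _ hy))
    (W.smul_mem _ hz)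

lemma mem_eigS {a u : Fin 4 → ℚ} (l : ℚ) (hl : l ∈ L0.carrier) (h : mulEx a u = l • u) :
    (show Ex from u) ∈ eigS (A := Ex) a L0.carrier :=
  (le_iSup₂_of_le (f := fun l (_ : l ∈ L0.carrier) => eig (A := Ex) a l) l hl le_rfl)
    ((mem_eig a u l).2 h)

theorem result : ∃ (F A : Type) (_ : Field F) (_ : NonUnitalNonAssocCommRing A) (_ : Module F A)
    (_ : IsScalarTower F A A) (_ : SMulCommClass F A A) (L : FusionLaw F) (X : Set A) (a : A),
    IsPrimitiveAxial L X ∧ a ∈ X ∧ Decomposable (block F a) := by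
  have ta : eigS (A := Ex) (vec 1 0 0 0) L0.carrier = ⊤ := by
    rw [eq_top_iff]
    intro (v : Fin 4 → ℚ) _
    refine comb v ![1, 0, 0, 0] ![0, 2, -1, 0] ![0, 0, 1, 0] ![0, 0, 0, 1] _
      (mem_eigS 1 (by simp [L0]) ?_) (mem_eigS 0 (by simp [L0]) ?_) (mem_eigS 2 (by simp [L0]) ?_)
      (mem_eigS 0 (by simp [L0]) ?_) (v 0) (v 1 / 2) (v 2 + v 1 / 2) (v 3) ?_ <;>
    · ext i; fin_cases i <;> simp [mulEx, vec]
  have tb : eigS (A := Ex) (vec 0 1 0 0) L0.carrier = ⊤ := by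
    rw [eq_top_iff]
    intro (v : Fin 4 → ℚ) _
    refine comb v ![6, 0, -3, 1] ![0, 1, 0, 0] ![0, 0, 1, -1] ![0, 0, 0, 1] _
      (mem_eigS 0 (by simp [L0]) ?_) (mem_eigS 1 (by simp [L0]) ?_) (mem_eigS 2 (by simp [L0]) ?_)
      (mem_eigS 3 (by simp [L0]) ?_) (v 0 / 6) (v 1) (v 2 + v 0 / 2) (v 3 + v 2 + v 0 / 3) ?_ <;>
    · ext i; fin_cases i <;> simp [mulEx, vec] <;> ring
  have hy : vec 1 0 0 0 * vec 0 1 0 0 = vec 0 0 1 0 := by
    show mulEx _ _ = _
    ext i; fin_cases i <;> simp [mulEx, vec]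
  have hy' : vec 0 1 0 0 * vec 1 0 0 0 = vec 0 0 1 0 := by rw [mul_comm, hy]
  have hz : vec 0 1 0 0 * vec 0 0 1 0 - (2 : ℚ) • vec 0 0 1 0 = vec 0 0 0 1 := by
    show mulEx _ _ - (2 : ℚ) • (![0, 0, 1, 0] : Fin 4 → ℚ) = (![0, 0, 0, 1] : Fin 4 → ℚ)
    ext i; fin_cases i <;> simp [mulEx, vec]
  let c : Fin 4 → Ex →ₗ[ℚ] ℚ := fun i => LinearMap.proj (R := ℚ) (φ := fun _ : Fin 4 => ℚ) i
  have hc : ∀ i (v : Fin 4 → ℚ), c i v = v i := fun _ _ => rfl
  have hblock : block ℚ (vec 1 0 0 0) = LinearMap.ker (c 1) := by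
    apply le_antisymm
    · refine sInf_le ⟨⟨le_top, fun (x : Fin 4 → ℚ) _ (y : Fin 4 → ℚ) hy => ?_⟩, rfl⟩
      have hy : y 1 = 0 := hy
      show mulEx x y 1 = 0
      simp [mulEx, hy]
    · refine le_sInf ?_
      rintro J ⟨⟨-, hJ⟩, ha⟩ (v : Fin 4 → ℚ) hv
      have hv : v 1 = 0 := hv
      have h1 : vec 0 0 1 0 ∈ J := hy' ▸ hJ _ trivial _ ha
      have h2 : vec 0 0 0 1 ∈ J := hz ▸ J.sub_mem (hJ _ trivial _ h1) (J.smul_mem _ h1)
      refine comb v _ _ _ _ J ha ha h1 h2 (v 0) 0 (v 2) (v 3) ?_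
      ext i; fin_cases i <;> simp [vec, hv]
  refine ⟨ℚ, Ex, inferInstance, inferInstance, inferInstance, inferInstance, inferInstance, L0,
    {vec 1 0 0 0, vec 0 1 0 0}, vec 1 0 0 0, ⟨?_, ?_⟩, by simp, ?_⟩
  · rintro a (rfl | rfl)
    · refine ⟨?_, ta, fun _ _ _ _ _ _ _ _ => ta.ge trivial, ?_⟩
      · show mulEx _ _ = _
        ext i; fin_cases i <;> simp [mulEx, vec]
      · ext (v : Fin 4 → ℚ)
        rw [mem_eig, Submodule.mem_span_singleton]
        constructor
        · intro h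
          have h1 := congrFun h 1
          have h2 := congrFun h 2
          have h3 := congrFun h 3
          simp [mulEx, vec] at h1 h2 h3
          refine ⟨v 0, ?_⟩
          show v 0 • (![1, 0, 0, 0] : Fin 4 → ℚ) = v
          ext i; fin_cases i <;> simp <;> linarith
        · rintro ⟨t, ht⟩
          have ht : t • (![1, 0, 0, 0] : Fin 4 → ℚ) = v := ht
          subst ht
          ext i; fin_cases i <;> simp [mulEx, vec]
    · refine ⟨?_, tb, fun _ _ _ _ _ _ _ _ => tb.ge trivial, ?_⟩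
      · show mulEx _ _ = _
        ext i; fin_cases i <;> simp [mulEx, vec]
      · ext (v : Fin 4 → ℚ)
        rw [mem_eig, Submodule.mem_span_singleton]
        constructor
        · intro h
          have h1 := congrFun h 0
          have h2 := congrFun h 2
          have h3 := congrFun h 3
          simp [mulEx, vec] at h1 h2 h3
          refine ⟨v 1, ?_⟩
          show v 1 • (![0, 1, 0, 0] : Fin 4 → ℚ) = v
          ext i; fin_cases i <;> simp <;> linarith
        · rintro ⟨t, ht⟩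
          have ht : t • (![0, 1, 0, 0] : Fin 4 → ℚ) = v := ht
          subst ht
          ext i; fin_cases i <;> simp [mulEx, vec]
  · rw [eq_top_iff]
    intro (v : Fin 4 → ℚ) _
    set S := NonUnitalAlgebra.adjoin ℚ ({vec 1 0 0 0, vec 0 1 0 0} : Set Ex)
    have ha : vec 1 0 0 0 ∈ S := NonUnitalAlgebra.subset_adjoin ℚ (by simp)
    have hb : vec 0 1 0 0 ∈ S := NonUnitalAlgebra.subset_adjoin ℚ (by simp)
    have h1 : vec 0 0 1 0 ∈ S := hy ▸ mul_mem ha hb
    have h2 : vec 0 0 0 1 ∈ S := hz ▸ sub_mem (mul_mem hb h1) (S.smul_mem _ h1)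
    refine comb v _ _ _ _ S.toSubmodule ha hb h1 h2 (v 0) (v 1) (v 2) (v 3) ?_
    ext i; fin_cases i <;> simp [vec]
  · rw [hblock]
    refine le_antisymm (sSup_le fun J hJ => hJ.1.1) ?_
    have key : ∀ k : Fin 4, (k = 0 ∨ k = 3) →
        LinearMap.ker (c 1) ⊓ LinearMap.ker (c k) ≤
          sSup {J | IsIdealIn (LinearMap.ker (c 1)) J ∧ J ≠ LinearMap.ker (c 1)} := by
      intro k hk
      refine le_sSup ⟨⟨inf_le_left, fun (x : Fin 4 → ℚ) hx (y : Fin 4 → ℚ) hy => ?_⟩, fun h => ?_⟩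
      · have hx : x 1 = 0 := hx
        have hy1 : y 1 = 0 := hy.1
        have hy2 : y k = 0 := hy.2
        refine ⟨show mulEx x y 1 = 0 from ?_, show mulEx x y k = 0 from ?_⟩
        · simp [mulEx, hx]
        · rcases hk with rfl | rfl <;> simp [mulEx, hx, hy1, hy2]
      · have h1 : vec 1 0 0 1 ∈ LinearMap.ker (c 1) := rfl
        rw [← h] at h1
        have h2 : (![1, 0, 0, 1] : Fin 4 → ℚ) k = 0 := h1.2
        rcases hk with rfl | rfl <;> simp at h2
    intro (v : Fin 4 → ℚ) hv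
    have hv : v 1 = 0 := hv
    have ha := key 3 (Or.inr rfl) (show vec 1 0 0 0 ∈ _ from ⟨rfl, rfl⟩)
    have h1 := key 3 (Or.inr rfl) (show vec 0 0 1 0 ∈ _ from ⟨rfl, rfl⟩)
    have h2 := key 0 (Or.inl rfl) (show vec 0 0 0 1 ∈ _ from ⟨rfl, rfl⟩)
    refine comb v _ _ _ _ _ ha ha h1 h2 (v 0) 0 (v 2) (v 3) ?_
    ext i; fin_cases i <;> simp [vec, hv]

end Pool.Agent.Results.MP_89b943_al.BlockDecomposable
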